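import Pool.Agent.Lib.MP_d5803c_pr.Final

/-!
A random sequence with two values and finite-dimensional stochastic module `L = A / J` which is not
a function of any Markov process of finite rank.  Example: `T` is a random time with
`P(T ≥ n) = 2^{-n} (3 + cos n) / 4`, and `Y_n = 1` if `T < n`, `Y_n = 0` otherwise (`n ≥ 1`).
-/

open MeasureTheory ProbabilityTheory

namespace Pool.Agent.Results.MP_d5803c_pr.NotFiniteRank

/-- There is a random sequence `Y` with values in the two-point space such that `L = A / J` is
finite-dimensional (of dimension at most `4`), but no measurable function of a finite-rank Markov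
process (on any measurable space, defined on any probability space) has the same finite-dimensional
distributions as `Y`. -/
theorem result.{u, v} :
    ∃ (Ω : Type) (_ : MeasurableSpace Ω) (Q : Measure Ω) (Y : ℕ → Ω → Bool),
      IsProbabilityMeasure Q ∧ (∀ n, Measurable (Y n)) ∧
      MP_d5803c_pr.DimLAtMost Q Y 4 ∧
      ¬ MP_d5803c_pr.IsFunctionOfFiniteRankMarkov.{u, v, 0, 0} Q Y :=
  ⟨ℕ, inferInstance, MP_d5803c_pr.QT, MP_d5803c_pr.YT, inferInstance, MP_d5803c_pr.measurable_YT,
    MP_d5803c_pr.dimL_le_four, MP_d5803c_pr.not_function_of_finite_rank.{u, v}⟩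

end Pool.Agent.Results.MP_d5803c_pr.NotFiniteRank
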